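import Pool.Agent.Helper90.Stretch.Main

namespace Pool.Agent.Results.MP_097bbc_lc.SublinearTester

open Pool.Agent.Helper90.Stretch

/-- For all constants `ε, p` in `(0, 1)` there is a sublinear sample size `k` such that the
sample-based tester for being stretched achieves false positive rate `p` at distance `ε`. -/
theorem result : ∀ ε p : ℝ, 0 < ε → ε < 1 → 0 < p → p < 1 →
    ∃ k : ℕ → ℕ, (∀ n, k n ≤ n) ∧
      Asymptotics.IsLittleO Filter.atTop (fun n : ℕ => (k n : ℝ)) (fun n : ℕ => (n : ℝ)) ∧
      Achieves k ε p :=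
  fun ε p hε _ hp _ => main ε p hε hp

end Pool.Agent.Results.MP_097bbc_lc.SublinearTester
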